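import Pool.Agent.Lib.MP_144d21_co.X2.IfaceS

/-!
# MP_144d21_co, project X2, module EES: the potential
-/

set_option autoImplicit false

namespace Pool.Agent.Xu.X2.H33

open Finset

private theorem ee_even (j : ℕ) : EE (2 * j) = (1 / 3) ^ j := by
  unfold EE
  rw [if_pos (by omega), show 2 * j / 2 = j by omega, one_mul]

private theorem ee_odd (j : ℕ) : EE (2 * j + 1) = 2 / 3 * (1 / 3) ^ j := by
  unfold EE
  rw [if_neg (by omega), show (2 * j + 1) / 2 = j by omega]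

private theorem par (d : ℕ) : (∃ j, d = 2 * j) ∨ ∃ j, d = 2 * j + 1 := by
  rcases Nat.even_or_odd d with h | h
  · obtain ⟨k, hk⟩ := h
    exact Or.inl ⟨k, by omega⟩
  · obtain ⟨k, hk⟩ := h
    exact Or.inr ⟨k, hk⟩

private theorem ppos (j : ℕ) : (0 : ℝ) < (1 / 3) ^ j := by positivity

private theorem ee_pos (d : ℕ) : 0 < EE d := by
  rcases par d with ⟨j, rfl⟩ | ⟨j, rfl⟩
  · rw [ee_even]; exact ppos j
  · rw [ee_odd]; have := ppos j; positivity

private theorem ee_step (d : ℕ) : 3 / 2 * EE (d + 1) ≤ EE d := by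
  rcases par d with ⟨j, rfl⟩ | ⟨j, rfl⟩
  · rw [ee_odd, ee_even]; have := ppos j; linarith
  · rw [show 2 * j + 1 + 1 = 2 * (j + 1) by ring, ee_even, ee_odd, pow_succ]
    have := ppos j
    linarith

private theorem ee_two (d : ℕ) : EE d ≤ 2 * EE (d + 1) := by
  rcases par d with ⟨j, rfl⟩ | ⟨j, rfl⟩
  · rw [ee_odd, ee_even]; have := ppos j; linarith
  · rw [show 2 * j + 1 + 1 = 2 * (j + 1) by ring, ee_even, ee_odd, pow_succ]
    have := ppos j
    linarith

private theorem ee_per (d : ℕ) : 3 * EE (d + 2) = EE d := by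
  rcases par d with ⟨j, rfl⟩ | ⟨j, rfl⟩
  · rw [show 2 * j + 2 = 2 * (j + 1) by ring, ee_even, ee_even, pow_succ]; ring
  · rw [show 2 * j + 1 + 2 = 2 * (j + 1) + 1 by ring, ee_odd, ee_odd, pow_succ]; ring

private theorem ee_anti (d e : ℕ) (h : d ≤ e) : EE e ≤ EE d := by
  obtain ⟨k, rfl⟩ := Nat.exists_eq_add_of_le h
  clear h
  induction k with
  | zero => simp
  | succ k ih =>
    have h1 := ee_step (d + k)
    have h2 := ee_pos (d + k + 1)
    rw [show d + (k + 1) = d + k + 1 by ring]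
    linarith

private theorem ee_add (a b : ℕ) : EE (a + b) ≤ EE a * EE b := by
  rcases par a with ⟨i, rfl⟩ | ⟨i, rfl⟩ <;> rcases par b with ⟨j, rfl⟩ | ⟨j, rfl⟩
  · rw [show 2 * i + 2 * j = 2 * (i + j) by ring, ee_even, ee_even, ee_even, pow_add]
  · rw [show 2 * i + (2 * j + 1) = 2 * (i + j) + 1 by ring, ee_odd, ee_even, ee_odd, pow_add]
    exact le_of_eq (by ring)
  · rw [show 2 * i + 1 + 2 * j = 2 * (i + j) + 1 by ring, ee_odd, ee_even, ee_odd, pow_add]
    exact le_of_eq (by ring)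
  · rw [show 2 * i + 1 + (2 * j + 1) = 2 * (i + j + 1) by ring, ee_even, ee_odd, ee_odd, pow_succ,
      pow_add]
    have h := mul_pos (ppos i) (ppos j)
    nlinarith

/-- EES -/
theorem ees : EesS := by
  refine ⟨?_, ee_pos, ee_anti, ee_two, ee_step, ee_per, ee_add, ?_, ?_⟩
  · have := ee_even 0
    simpa using this
  · intro j
    rw [ee_even, pow_mul, ← mul_pow]
    norm_num
  · intro j
    rw [ee_odd, pow_succ, pow_mul, pow_succ]
    have h : (2 ^ 2 : ℝ) ^ j * (1 / 3) ^ j = (4 / 3) ^ j := by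
      rw [← mul_pow]; norm_num
    calc (2 ^ 2 : ℝ) ^ j * 2 * (2 / 3 * (1 / 3) ^ j) = 4 / 3 * ((2 ^ 2 : ℝ) ^ j * (1 / 3) ^ j) := by
          ring
      _ = (4 / 3) ^ j * (4 / 3) := by rw [h]; ring

end Pool.Agent.Xu.X2.H33

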