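import Pool.Agent.Lib.MP_144d21_co.X2.IfaceS

/-!
# MP_144d21_co, project X2, section 4: graphs without a separation of order 3.
Modules NCA, NCB4, NCB5, NOCUT.
-/

set_option autoImplicit false

namespace Pool.Agent.Xu.X2.H33

open Finset

variable {V : Type} [Fintype V] [DecidableEq V]

private theorem cc_one {t : ℕ} (h : t ≤ 5) : cc t = 1 := by
  unfold cc
  rw [Nat.sub_eq_zero_of_le h, pow_zero]

private theorem clus_single {p : V → Fin 3 → ℝ} {G : SimpleGraph V} {S : Finset V} {x : V}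
    (h : x ∈ S) : Clus p G S {x} := by
  refine ⟨singleton_subset_iff.2 h, ?_⟩
  intro u hu v hv
  rw [mem_singleton] at hu hv
  rw [hu, hv, row_self]
  exact Submodule.zero_mem _

/-- NCA -/
theorem nca (hNC2 : Nc2S) (hDC : BetdcS) (hBNN : BnnS) (hCON : Con2S) (_hE : EesS)
    (hNE : NecntS) : NcaS := by
  intro V _ _ p G S v w h3 hno h5 hv hw hadj hrk hIH
  obtain ⟨h3', hcut⟩ := hNC2 V G S v w h3 hno h5 hv hw hadj
  have hne := ((hNE V G S).1 v hv w hw hadj).1
  have hbd : Bd p (del G v w) S := hIH (del G v w) S (Or.inr ⟨rfl, by omega⟩) h3'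
  have hfam : Fam p (del G v w) S 2 := by
    refine ⟨fun k => if k = 0 then {v} else {w}, fun k => ?_, ?_⟩
    · by_cases hk : k = 0
      · simp only [hk, if_true]; exact clus_single hv
      · simp only [hk, if_false]; exact clus_single hw
    · intro T P Q hC
      rcases hcut T P Q hC with h | h
      · exact ⟨0, v, h, by simp⟩
      · exact ⟨1, w, h, by simp⟩
  have h1 := hbd 2 hfam
  rw [cc_one (by norm_num), one_mul] at h1
  have hF : FF p (del G v w) S = FF p G S := by
    unfold FF dd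
    rw [hrk]
  rw [hF] at h1
  have h2c := hCON V G S v w h3 hv hw hadj
  have h0 : 0 ≤ bet (con G v w) (S.erase v) := hBNN V _ _ h2c.2.1 h2c.1
  have h2 := hDC V G S v w hv hw hadj
  have h3 : (bet G S : ℝ) = bet (del G v w) S + bet (con G v w) (S.erase v) := by
    rw [h2]; push_cast; rfl
  have h4 : (0 : ℝ) ≤ (bet (con G v w) (S.erase v) : ℝ) := by exact_mod_cast h0
  linarith

private theorem stg_le {k : ℕ} (x : Fin k → V) (i : Fin k) (N : Finset V)
    (h : univ.image x = N) : stg x i ≤ cl N := by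
  have hm : ∀ j, x j ∈ N := fun j => by
    rw [← h]; exact mem_image_of_mem _ (mem_univ _)
  intro a b hab
  obtain ⟨hne, j, _, h1⟩ := hab
  rcases h1 with ⟨rfl, rfl⟩ | ⟨rfl, rfl⟩
  · exact ⟨hne, hm i, hm j⟩
  · exact ⟨hne, hm j, hm i⟩

/-- the bound for a graph obtained from `G - v` by adding a star inside the neighbourhood -/
private theorem bdR (hNC1 : Nc1S) (hTM : TmonS) (p : V → Fin 3 → ℝ) (G : SimpleGraph V)
    (S : Finset V) (v : V) (h3 : ThreeConn G S) (hno : ∀ T P Q, ¬ Cut3 G S T P Q)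
    (h5 : 5 ≤ S.card) (hv : v ∈ S) (hIH : IH p G S) (k : ℕ) (hk : k ≤ 5) (x : Fin k → V)
    (hx : univ.image x = nb G S v) (i : Fin k) :
    FF p (G ⊔ stg x i) (S.erase v) ≤ (bet (G ⊔ stg x i) (S.erase v) : ℝ) := by
  obtain ⟨_, h3R, hcut⟩ := hNC1 V G S v h3 hno h5 hv
  have h3' : ThreeConn (G ⊔ stg x i) (S.erase v) := hTM V G _ _ le_sup_left h3R
  have hle := stg_le x i _ hx
  have hcard : (S.erase v).card < S.card := card_erase_lt_of_mem hv
  have hbd := hIH (G ⊔ stg x i) (S.erase v) (Or.inl hcard) h3'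
  have hmem : ∀ j, x j ∈ nb G S v := fun j => by
    rw [← hx]; exact mem_image_of_mem _ (mem_univ _)
  have hfam : Fam p (G ⊔ stg x i) (S.erase v) k := by
    refine ⟨fun j => {x j}, fun j => ?_, ?_⟩
    · have h := mem_nb.1 (hmem j)
      exact clus_single (mem_erase.2 ⟨fun h' => h.2.ne h'.symm, h.1⟩)
    · intro T P Q hC
      obtain ⟨y, hyP, hy⟩ := hcut (stg x i) hle T P Q hC
      rw [← hx] at hy
      obtain ⟨j, _, rfl⟩ := mem_image.1 hy
      exact ⟨j, x j, hyP, mem_singleton_self _⟩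
  have h1 := hbd k hfam
  rwa [cc_one hk, one_mul] at h1

private theorem rkR_le (p : V → Fin 3 → ℝ) (G F : SimpleGraph V) (S : Finset V) :
    rk p G S ≤ rk p (G ⊔ F) S :=
  rk_mono (subset_refl _) fun _ _ _ _ h => Or.inl h

/-- ranks and degrees of freedom after removing `v` -/
private theorem ddR (hNE : NecntS) (hRK : RkneS) (hKN : KnS) (p : V → Fin 3 → ℝ) (hp : GP p)
    (G : SimpleGraph V) (S : Finset V) (v : V) (h5 : 5 ≤ S.card) (hv : v ∈ S)
    (hr : rk p G S = ne G S) (F : SimpleGraph V) (m : ℕ)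
    (hm : rk p G (S.erase v) + m ≤ rk p (G ⊔ F) (S.erase v)) :
    dd p (G ⊔ F) (S.erase v) + m + 3 ≤ dd p G S + (nb G S v).card := by
  have h1 := (hNE V G S).2.1 v hv
  have h2 := (hRK V G G S (S.erase v) p).2 (erase_subset _ _) (fun _ _ _ _ h => h) hr
  have h3 := (hKN V p hp G S (by omega)).1
  have hc : (S.erase v).card = S.card - 1 := card_erase_of_mem hv
  have h4 := (hKN V p hp (G ⊔ F) (S.erase v) (by omega)).1
  unfold dd
  omega

private theorem pow_step {n : ℕ} (h : 4 ≤ n) : (2 : ℝ) ^ (n - 3) = 2 * 2 ^ (n - 1 - 3) := by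
  obtain ⟨m, rfl⟩ := Nat.exists_eq_add_of_le h
  rw [show 4 + m - 3 = m + 1 by omega, show 4 + m - 1 - 3 = m by omega, pow_succ]
  ring

/-- NCB4 -/
theorem ncb4 (hE : EesS) (hNC1 : Nc1S) (hR4 : Rst4S) (hSTX : StxS) (hNE : NecntS) (hRK : RkneS)
    (hKN : KnS) (hTM : TmonS) : Ncb4S := by
  intro V _ _ p hp G S v h3 hno h5 hv hd hr hIH
  obtain ⟨a, ha, b, hb, hab⟩ := hR4 V p hp G S v hv hd hr
  have hne : a ≠ b := by
    rintro rfl
    rw [row_self] at hab
    exact hab (Submodule.zero_mem _)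
  -- an enumeration of the neighbours that starts with a, b
  obtain ⟨x, hxi, hxm, hx0, hx1⟩ : ∃ x : Fin 4 → V, Function.Injective x ∧
      univ.image x = nb G S v ∧ x 0 = a ∧ x 1 = b := by
    have hcd : ((nb G S v).erase a).erase b = ((nb G S v).erase a).erase b := rfl
    have hb' : b ∈ (nb G S v).erase a := mem_erase.2 ⟨hne.symm, hb⟩
    have hc2 : (((nb G S v).erase a).erase b).card = 2 := by
      rw [card_erase_of_mem hb', card_erase_of_mem ha, hd]
    obtain ⟨c, d, hcd, hset⟩ := card_eq_two.1 hc2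
    have hcm : c ∈ ((nb G S v).erase a).erase b := by rw [hset]; simp
    have hdm : d ∈ ((nb G S v).erase a).erase b := by rw [hset]; simp
    simp only [mem_erase, ne_eq] at hcm hdm
    refine ⟨![a, b, c, d], ?_, ?_, rfl, rfl⟩
    · intro i j hij
      fin_cases i <;> fin_cases j <;> simp at hij ⊢
      · exact hne hij
      · exact hcm.2.1 hij.symm
      · exact hdm.2.1 hij.symm
      · exact hne hij.symm
      · exact hcm.1 hij.symm
      · exact hdm.1 hij.symm
      · exact hcm.2.1 hij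
      · exact hcm.1 hij
      · exact hcd hij
      · exact hdm.2.1 hij
      · exact hdm.1 hij
      · exact hcd hij.symm
    · apply eq_of_subset_of_card_le
      · intro y hy
        obtain ⟨i, _, rfl⟩ := mem_image.1 hy
        fin_cases i
        · exact ha
        · exact hb
        · exact hcm.2.2
        · exact hdm.2.2
      · rw [hd, card_image_of_injective]
        · simp
        · intro i j hij
          fin_cases i <;> fin_cases j <;> simp at hij ⊢
          · exact hne hij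
          · exact hcm.2.1 hij.symm
          · exact hdm.2.1 hij.symm
          · exact hne hij.symm
          · exact hcm.1 hij.symm
          · exact hdm.1 hij.symm
          · exact hcm.2.1 hij
          · exact hcm.1 hij
          · exact hcd hij
          · exact hdm.2.1 hij
          · exact hdm.1 hij
          · exact hcd hij.symm
  have hsum := hSTX V G S v 3 x h3 hv hxi hxm
  have hB := fun i => bdR hNC1 hTM p G S v h3 hno h5 hv hIH 4 (by norm_num) x hxm i
  obtain ⟨_, _, hanti, htwo, _⟩ := hE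
  have hc : (S.erase v).card = S.card - 1 := card_erase_of_mem hv
  have hpw : (0 : ℝ) < 2 ^ (S.card - 1 - 3) := by positivity
  -- the general lower bound
  have hgen : ∀ i : Fin 4, 2 ^ (S.card - 1 - 3) * EE (dd p G S + 1) ≤
      (bet (G ⊔ stg x i) (S.erase v) : ℝ) := by
    intro i
    refine le_trans ?_ (hB i)
    unfold FF
    rw [hc]
    have h1 := ddR hNE hRK hKN p hp G S v h5 hv hr (stg x i) 0 (rkR_le _ _ _ _)
    exact mul_le_mul_of_nonneg_left (hanti _ _ (by omega)) hpw.le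
  have hfirst : 2 ^ (S.card - 1 - 3) * EE (dd p G S) ≤
      (bet (G ⊔ stg x 0) (S.erase v) : ℝ) := by
    refine le_trans ?_ (hB 0)
    unfold FF
    rw [hc]
    have hlt : rk p G (S.erase v) + 1 ≤ rk p (G ⊔ stg x 0) (S.erase v) := by
      apply Submodule.finrank_lt_finrank_of_lt
      refine lt_of_le_of_ne (rs_mono (subset_refl _) fun _ _ _ _ h => Or.inl h) ?_
      intro heq
      apply hab
      change rs p G (S.erase v) = rs p (G ⊔ stg x 0) (S.erase v) at heq
      rw [heq]
      apply Submodule.subset_span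
      have ha' := mem_nb.1 ha
      have hb' := mem_nb.1 hb
      refine ⟨a, mem_erase.2 ⟨fun h' => ha'.2.ne h'.symm, ha'.1⟩, b,
        mem_erase.2 ⟨fun h' => hb'.2.ne h'.symm, hb'.1⟩, Or.inr ?_, rfl⟩
      exact ⟨hne, 1, by decide, Or.inl ⟨hx0.symm, hx1.symm⟩⟩
    have h1 := ddR hNE hRK hKN p hp G S v h5 hv hr (stg x 0) 1 hlt
    exact mul_le_mul_of_nonneg_left (hanti _ _ (by omega)) hpw.le
  have h1 : (bet G S : ℝ) = (bet (G ⊔ stg x 0) (S.erase v) : ℝ) +
      (bet (G ⊔ stg x 1) (S.erase v) : ℝ) + (bet (G ⊔ stg x 2) (S.erase v) : ℝ) := by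
    rw [hsum, Fin.sum_univ_three]
    push_cast
    rfl
  have h2 := hgen 1
  have h3 := hgen 2
  have h4 := htwo (dd p G S)
  have h5' : FF p G S = 2 ^ (S.card - 1 - 3) * (2 * EE (dd p G S)) := by
    unfold FF
    rw [pow_step (by omega : 4 ≤ S.card)]
    ring
  rw [h5', h1]
  have h6 := mul_le_mul_of_nonneg_left h4 hpw.le
  nlinarith

/-- NCB5 -/
theorem ncb5 (hE : EesS) (hNC1 : Nc1S) (hR5 : Rst5S) (hSTX : StxS) (hNE : NecntS) (hRK : RkneS)
    (hKN : KnS) (hTM : TmonS) : Ncb5S := by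
  intro V _ _ p hp G S v h3 hno h5 hv hd hr hIH
  obtain ⟨x, hxi, hxm, hrk⟩ := hR5 V p hp G S v hv hd hr
  have hsum := hSTX V G S v 4 x h3 hv hxi hxm
  have hB := fun i => bdR hNC1 hTM p G S v h3 hno h5 hv hIH 5 (by norm_num) x hxm i
  obtain ⟨_, _, hanti, _, _, hper, _⟩ := hE
  have hc : (S.erase v).card = S.card - 1 := card_erase_of_mem hv
  have hpw : (0 : ℝ) < 2 ^ (S.card - 1 - 3) := by positivity
  have hgen : ∀ i : Fin 5, 2 ^ (S.card - 1 - 3) * EE (dd p G S + 2) ≤
      (bet (G ⊔ stg x i) (S.erase v) : ℝ) := by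
    intro i
    refine le_trans ?_ (hB i)
    unfold FF
    rw [hc]
    have h1 := ddR hNE hRK hKN p hp G S v h5 hv hr (stg x i) 0 (rkR_le _ _ _ _)
    exact mul_le_mul_of_nonneg_left (hanti _ _ (by omega)) hpw.le
  have hfirst : 2 ^ (S.card - 1 - 3) * EE (dd p G S) ≤
      (bet (G ⊔ stg x 0) (S.erase v) : ℝ) := by
    refine le_trans ?_ (hB 0)
    unfold FF
    rw [hc]
    have h1 := ddR hNE hRK hKN p hp G S v h5 hv hr (stg x 0) 2 hrk
    exact mul_le_mul_of_nonneg_left (hanti _ _ (by omega)) hpw.le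
  have h1 : (bet G S : ℝ) = (bet (G ⊔ stg x 0) (S.erase v) : ℝ) +
      (bet (G ⊔ stg x 1) (S.erase v) : ℝ) + (bet (G ⊔ stg x 2) (S.erase v) : ℝ) +
      (bet (G ⊔ stg x 3) (S.erase v) : ℝ) := by
    rw [hsum, Fin.sum_univ_four]
    push_cast
    rfl
  have h2 := hgen 1
  have h3 := hgen 2
  have h3' := hgen 3
  have h4 := hper (dd p G S)
  have h5' : FF p G S = 2 ^ (S.card - 1 - 3) * (2 * EE (dd p G S)) := by
    unfold FF
    rw [pow_step (by omega : 4 ≤ S.card)]
    ring
  rw [h5', h1]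
  have h6 : (2 : ℝ) ^ (S.card - 1 - 3) * (3 * EE (dd p G S + 2)) =
      2 ^ (S.card - 1 - 3) * EE (dd p G S) := by rw [h4]
  nlinarith

/-- NOCUT -/
theorem nocut (hE : EesS) (hK4 : K4S) (hA : NcaS) (h4 : Ncb4S) (h5 : Ncb5S) (hRR : RkredS)
    (hH : HandS) (hKN : KnS) (hNC1 : Nc1S) : NocutS := by
  intro V _ _ p hp G S h3 hno hIH
  rcases Nat.lt_or_ge S.card 5 with hc | hc
  · have hc4 : S.card = 4 := le_antisymm (by omega) h3.1
    rw [hK4 V G S h3 hc4]
    unfold FF
    rw [hc4]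
    have h1 : EE (dd p G S) ≤ 1 := by
      rw [← hE.1]; exact hE.2.2.1 _ _ (Nat.zero_le _)
    norm_num
    linarith
  · by_cases hr : rk p G S = ne G S
    · have h1 := (hKN V p hp G S (by omega)).1
      obtain ⟨v, hv, hd⟩ := hH V G S (by omega)
      have hd4 := (hNC1 V G S v h3 hno hc hv).1
      rcases Nat.lt_or_ge (nb G S v).card 5 with h | h
      · exact h4 V p hp G S v h3 hno hc hv (by omega) hr hIH
      · exact h5 V p hp G S v h3 hno hc hv (by omega) hr hIH
    · obtain ⟨v, hv, w, hw, hadj, hrk⟩ := hRR V G S p hr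
      exact hA V p G S v w h3 hno hc hv hw hadj hrk hIH

end Pool.Agent.Xu.X2.H33

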